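import Pool.Agent.Helper86.UQ.St5

/-!
# Project UQ, module AMN: amenable averaging
-/

set_option autoImplicit false

open Finset

namespace Pool.Agent.Helper61.UQ

open Classical Pool.Agent.Helper30.RCU Pool.Agent.Helper1.UQ Pool.Agent.Helper86.UQ

universe u

lemma sum_te_iso (hMTE : StMTE.{u}) {V : Type u} (G : SimpleGraph V)
    (hlf : ∀ v, (G.neighborSet v).Finite) (g : G ≃g G) (o v : V) (hg : g o = v)
    (a : G.edgeSet → ℝ) (ha : ∀ e, a (g.mapEdgeSet e) = a e) :
    ∑ e ∈ te G {v}, a e = ∑ e ∈ te G {o}, a e := by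
  symm
  refine Finset.sum_equiv g.mapEdgeSet (fun e => ?_) (fun e _ => (ha e).symm)
  rw [(hMTE V G hlf {o} e).1, (hMTE V G hlf {v} (g.mapEdgeSet e)).1]
  have hval : ((g.mapEdgeSet e : G.edgeSet) : Sym2 V) = (e : Sym2 V).map g := rfl
  rw [hval]
  constructor
  · rintro ⟨w, hw, hwo⟩
    rw [Finset.mem_singleton] at hwo
    subst hwo
    exact ⟨v, Sym2.mem_map.mpr ⟨w, hw, hg⟩, Finset.mem_singleton_self v⟩
  · rintro ⟨w, hw, hwv⟩
    rw [Finset.mem_singleton] at hwv
    obtain ⟨x, hx, hxw⟩ := Sym2.mem_map.mp hw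
    have : x = o := g.injective (by rw [hxw, hwv, hg])
    exact ⟨x, hx, by rw [this]; exact Finset.mem_singleton_self o⟩

theorem hAMN (hMTE : StMTE.{u}) (hCNT : StCNT.{u}) (hBOX : StBOX.{u}) (hBDD : StBDD.{u})
    (hINV : StINV.{u}) : StAMN.{u} := by
  intro V G hlf htr hA p p' t q hp' hpp hp1 ht ht1 hq o
  set L := Real.log (p * (1 - p') / (p' * (1 - p))) with hL
  have hLpos : 0 < L := by
    refine Real.log_pos ?_
    have h1 : 0 < p' * (1 - p) := mul_pos hp' (by linarith)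
    rw [lt_div_iff₀ h1]
    nlinarith
  have hp0 : 0 ≤ p := by linarith
  have hp1' : p ≤ 1 := hp1.le
  have hq0 : 0 ≤ Real.log q := Real.log_nonneg hq
  set H := ∑ e ∈ te G {o}, h8 G p' t q e with hH
  set F := ∑ e ∈ te G {o}, f8 G p q e with hF
  set τ := -Real.log (1 - t) with hτ
  have hHv : ∀ v : V, ∑ e ∈ te G {v}, h8 G p' t q e = H := by
    intro v
    obtain ⟨g, hg⟩ := htr o v
    exact sum_te_iso hMTE G hlf g o v hg _ fun e =>
      (hINV V G hlf p' t q hp'.le (by linarith) ht ht1.le hq g e).2.2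
  have hFv : ∀ v : V, ∑ e ∈ te G {v}, f8 G p q e = F := by
    intro v
    obtain ⟨g, hg⟩ := htr o v
    exact sum_te_iso hMTE G hlf g o v hg _ fun e =>
      (hINV V G hlf p t q hp0 hp1' ht ht1.le hq g e).1
  have key : ∀ I : Finset V, L * ((I.card : ℝ) * H) ≤
      L * ((I.card : ℝ) * F + ((bd G I).card : ℝ)) + 2 * ((I.card : ℝ) * τ) +
        2 * (((bd G I).card : ℝ) * Real.log q) := by
    intro I
    have c1 := (hCNT V G hlf I (fun e => h8 G p' t q e)
      (fun e => (hBDD V G p' t q hp'.le (by linarith) ht ht1.le hq e).2.2.2.2.2.1)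
      (fun e => (hBDD V G p' t q hp'.le (by linarith) ht ht1.le hq e).2.2.2.2.2.2)).1
    have c2 := (hCNT V G hlf I (fun e => f8 G p q e)
      (fun e => (hBDD V G p t q hp0 hp1' ht ht1.le hq e).2.1)
      (fun e => (hBDD V G p t q hp0 hp1' ht ht1.le hq e).2.2.1)).2
    have d1 : ∑ v ∈ I, ∑ e ∈ te G {v}, h8 G p' t q e = (I.card : ℝ) * H := by
      rw [Finset.sum_congr rfl (fun v _ => hHv v), Finset.sum_const, nsmul_eq_mul]
    have d2 : ∑ v ∈ I, ∑ e ∈ te G {v}, f8 G p q e = (I.card : ℝ) * F := by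
      rw [Finset.sum_congr rfl (fun v _ => hFv v), Finset.sum_const, nsmul_eq_mul]
    simp only [d1] at c1
    simp only [d2] at c2
    have e1 : ∑ e ∈ te G I, h8 G p' t q e ≤ ∑ e ∈ te G I, hI G p' t q I e :=
      Finset.sum_le_sum fun e _ =>
        ((hBDD V G p' t q hp'.le (by linarith) ht ht1.le hq e).1 I).2.2.2.2.2.2.2
    have e2 : ∑ e ∈ te G I, fI G p q I e ≤ ∑ e ∈ te G I, f8 G p q e :=
      Finset.sum_le_sum fun e _ => ((hBDD V G p t q hp0 hp1' ht ht1.le hq e).1 I).2.1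
    have e3 := hBOX V G hlf p p' t q hp' hpp hp1 ht ht1 hq I
    rw [← hL, ← hτ] at e3
    have f1 := mul_le_mul_of_nonneg_left c1 hLpos.le
    have f2 := mul_le_mul_of_nonneg_left e1 hLpos.le
    have f3 := mul_le_mul_of_nonneg_left e2 hLpos.le
    have f4 := mul_le_mul_of_nonneg_left c2 hLpos.le
    nlinarith
  refine le_of_forall_pos_le_add fun δ hδ => ?_
  have hD : 0 < L + 2 * Real.log q + 1 := by linarith
  obtain ⟨I, hI, hb⟩ := hA (δ / (L + 2 * Real.log q + 1)) (div_pos hδ hD)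
  have hn : (0 : ℝ) < I.card := by exact_mod_cast hI.card_pos
  have k1 := key I
  set n : ℝ := (I.card : ℝ) with hndef
  set b : ℝ := ((bd G I).card : ℝ) with hbdef
  have hb0 : 0 ≤ b := Nat.cast_nonneg _
  have k2 : b * (L + 2 * Real.log q) ≤ n * δ := by
    have h1 : b * (L + 2 * Real.log q) ≤
        δ / (L + 2 * Real.log q + 1) * n * (L + 2 * Real.log q) :=
      mul_le_mul_of_nonneg_right hb (by linarith)
    have h2 : δ / (L + 2 * Real.log q + 1) * (L + 2 * Real.log q) ≤ δ := by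
      rw [div_mul_eq_mul_div, div_le_iff₀ hD]
      nlinarith
    have h3 := mul_le_mul_of_nonneg_left h2 hn.le
    nlinarith
  have k3 : n * (L * H) ≤ n * (L * F + 2 * τ + δ) := by nlinarith
  exact le_of_mul_le_mul_left k3 hn

end Pool.Agent.Helper61.UQ
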