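import Pool.Agent.Helper1.UQ.St2

/-!
# Project UQ, module CLH: lower bound for the closed probability in the low phase
-/

set_option autoImplicit false

open Finset

namespace Pool.Agent.Helper61.UQ

open Classical Pool.Agent.Helper30.RCU Pool.Agent.Helper1.UQ

universe u

lemma oe_nonneg {ι : Type u} (e : ι) (ω : Finset ι) : 0 ≤ oe e ω := by
  unfold oe
  split_ifs <;> norm_num

lemma oe_mono {ι : Type u} (e : ι) : Monotone (oe e) := by
  intro ω ω' h
  unfold oe
  split_ifs with h1 h2 h2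
  · exact le_rfl
  · exact absurd (h h1) h2
  · norm_num
  · exact le_rfl

lemma oe_insert_ne {ι : Type u} [DecidableEq ι] {e a : ι} (h : e ≠ a) (ω : Finset ι) :
    oe e (insert a ω) = oe e ω := by
  unfold oe
  have h0 : e ∈ insert a ω ↔ e ∈ ω := by
    rw [Finset.mem_insert]
    exact ⟨fun h1 => h1.resolve_left h, fun h1 => Or.inr h1⟩
  by_cases he : e ∈ ω
  · rw [if_pos he, if_pos (h0.mpr he)]
  · rw [if_neg he, if_neg (fun h1 => he (h0.mp h1))]

theorem hCLH (hHLB : StHLB.{u}) (hMDW : StMDW.{u}) : StCLH.{u} := by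
  intro V G hG hlf p t q hp hp1 ht ht1 hq x n k m ρ U s hs b hb hm hn u hu hbu
  have hpr0 : ∀ e, 0 ≤ pr G p t e := pr_nonneg hp.le ht
  have hpr1 : ∀ e, pr G p t e ≤ 1 := pr_le_one hp1.le ht1
  have h := hHLB (Option V) (GE G) (pI G (bl G x n)) (pr G p t) q hpr0 hpr1 hq
    ((te G (bl G x n)).disjSum U) k (fun j => Sum.inl (s (u j))) b hb
  suffices hmain : ∀ j < k, b ≤ ex (pI G (bl G x n)) (pr G p t) q
      ((te G (bl G x n)).disjSum U) (fun ω => 1 - oe (Sum.inl (s (u j))) ω) by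
    have h' := h hmain
    have hinst : ∀ (i1 i2 : DecidableEq (GE G)),
        @Finset.image ℕ (GE G) i1 (fun j => Sum.inl (s (u j))) (Finset.range k) =
        @Finset.image ℕ (GE G) i2 (fun j => Sum.inl (s (u j))) (Finset.range k) := by
      intro i1 i2
      rw [Subsingleton.elim i1 i2]
    rw [hinst _ (fun a b => propDecidable (a = b))]
    exact h'
  intro j hj
  set Λ := bl G x n with hΛ
  set B := bl G (u j) m with hB
  set e := s (u j) with he
  have hux : u j ∈ Λ := by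
    rw [hΛ, mem_bl hG hlf, hu j hj]
    have h1 : j * ρ ≤ k * ρ := Nat.mul_le_mul_right ρ hj.le
    omega
  have huB : u j ∈ B := by
    rw [hB, mem_bl hG hlf, SimpleGraph.dist_self]
    omega
  have hBΛ : B ⊆ Λ := by
    intro v hv
    rw [hB, mem_bl hG hlf] at hv
    rw [hΛ, mem_bl hG hlf]
    have h1 : G.dist x v ≤ G.dist x (u j) + G.dist (u j) v := hG.dist_triangle
    rw [hu j hj] at h1
    have h2 : j * ρ ≤ k * ρ := Nat.mul_le_mul_right ρ hj.le
    omega
  have heB : e ∈ te G B := (mem_te hlf).mpr ⟨u j, hs (u j), huB⟩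
  have heΛ : e ∈ te G Λ := te_mono hlf hBΛ heB
  have hins : insert e (te G B) = te G B := Finset.insert_eq_of_mem heB
  have h1 : ex (pI G Λ) (pr G p t) q ((te G Λ).disjSum U) (fun ω => 1 - oe (Sum.inl e) ω) =
      1 - ex (pI G Λ) (pr G p t) q ((te G Λ).disjSum U) (oe (Sum.inl e)) := by
    have h2 := ex_sub (φ := pI G Λ) (p := pr G p t) (q := q) ((te G Λ).disjSum U)
      (fun _ => (1 : ℝ)) (oe (Sum.inl e))
    rw [ex_const hpr0 hpr1 hq] at h2
    exact h2
  have h2 : ex (pI G Λ) (pr G p t) q ((te G Λ).disjSum U) (oe (Sum.inl e)) ≤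
      ex (pI G Λ) (pr G p t) q ((te G Λ).disjSum (U ∪ B)) (oe (Sum.inl e)) := by
    have h3 := ex_union_mono (φ := pI G Λ) hpr0 hpr1 hq ((te G Λ).disjSum U)
      ((∅ : Finset G.edgeSet).disjSum B) (oe_nonneg (Sum.inl e)) (oe_mono (Sum.inl e))
    refine h3.trans (le_of_eq ?_)
    congr 1
    ext a
    rcases a with a | a
    · simp
    · simp
  have h3 : ex (pI G Λ) (pr G p t) q ((te G Λ).disjSum (U ∪ B)) (oe (Sum.inl e)) ≤
      hI G p t q B e := by
    have h4 := hMDW V G p t q hp.le hp1.le ht ht1 hq B Λ (te G B) (te G Λ) B (U ∪ B) hBΛ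
      (te_mono hlf hBΛ)
      (fun a _ ha v hv hvB => ha ((mem_te hlf).mpr ⟨v, hv, hvB⟩)) subset_union_right
      (fun v _ hv => hv) (oe (Sum.inl e)) (oe_nonneg _) (oe_mono _)
      (fun a _ ha ω => oe_insert_ne (fun h5 => ha (by rw [← Sum.inl.inj h5]; exact heB)) ω)
      (fun v _ _ ω => oe_insert_ne Sum.inl_ne_inr ω)
    unfold eD at h4
    unfold hI eD
    rw [hins]
    exact h4
  have h4 := hbu j hj
  rw [h1]
  linarith

end Pool.Agent.Helper61.UQ
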