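import Pool.Agent.Helper1.UQ.St2

/-!
# Project UQ, module EPB: choice of the ghost field
-/

set_option autoImplicit false

namespace Pool.Agent.Helper61.UQ

open Pool.Agent.Helper1.UQ

theorem hEPB : StEPB := by
  intro N
  have hN : (0 : ℝ) ≤ N := Nat.cast_nonneg N
  have hD : (0 : ℝ) < 4 * ((N : ℝ) + 2) := by linarith
  have ht0 : (0 : ℝ) < 1 / (4 * ((N : ℝ) + 2)) := by positivity
  have ht8 : 1 / (4 * ((N : ℝ) + 2)) ≤ (1 / 8 : ℝ) :=
    one_div_le_one_div_of_le (by norm_num) (by linarith)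
  refine ⟨1 / (4 * ((N : ℝ) + 2)), 8 * (N + 2), ht0, by linarith, ?_, ?_⟩
  · set t : ℝ := 1 / (4 * ((N : ℝ) + 2)) with ht
    have h1 : 1 - t / 2 ≤ Real.exp (-(t / 2)) := by
      have := Real.add_one_le_exp (-(t / 2))
      linarith
    have h0 : 0 ≤ 1 - t / 2 := by linarith
    have h2 : (1 - t / 2) ^ (8 * (N + 2)) ≤ Real.exp (-(t / 2)) ^ (8 * (N + 2)) :=
      pow_le_pow_left₀ h0 h1 _
    rw [← Real.exp_nat_mul] at h2
    have h3 : ((8 * (N + 2) : ℕ) : ℝ) * (-(t / 2)) = -1 := by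
      rw [ht]
      push_cast
      field_simp
      norm_num
    rw [h3] at h2
    have h4 : (2 : ℝ) ≤ Real.exp 1 := by
      have := Real.add_one_le_exp (1 : ℝ)
      linarith
    have h5 : Real.exp (-1) ≤ 1 / 2 := by
      rw [Real.exp_neg, ← one_div]
      exact one_div_le_one_div_of_le (by norm_num) h4
    exact h2.trans h5
  · set t : ℝ := 1 / (4 * ((N : ℝ) + 2)) with ht
    have h1t : (0 : ℝ) < 1 - t := by linarith
    have h1 : 1 - (1 - t)⁻¹ ≤ Real.log (1 - t) := Real.one_sub_inv_le_log_of_pos h1t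
    have h2 : -Real.log (1 - t) ≤ 2 * t := by
      have h3 : (1 - t)⁻¹ - 1 ≤ 2 * t := by
        rw [inv_eq_one_div, sub_le_iff_le_add, div_le_iff₀ h1t]
        nlinarith
      linarith
    have h3 : (0 : ℝ) ≤ (N : ℝ) + ((8 * (N + 2) : ℕ) : ℝ) + 1 := by positivity
    refine (mul_le_mul_of_nonneg_right h2 h3).trans ?_
    rw [ht]
    push_cast
    have h4 : 2 * (1 / (4 * ((N : ℝ) + 2))) * ((N : ℝ) + 8 * ((N : ℝ) + 2) + 1) =
        (9 * (N : ℝ) + 17) / (2 * ((N : ℝ) + 2)) := by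
      field_simp
      ring
    rw [h4, div_le_iff₀ (by linarith)]
    linarith

end Pool.Agent.Helper61.UQ
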