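import Pool.Agent.Helper86.UQ.St5
import Pool.Agent.Helper30.RCU.Geo

/-!
# Project UQ, module MTE: membership
-/

set_option autoImplicit false

open Finset

namespace Pool.Agent.Helper61.UQ

open Classical Pool.Agent.Helper30.RCU Pool.Agent.Helper1.UQ Pool.Agent.Helper86.UQ

universe u

theorem hMTE : StMTE.{u} := by
  intro V G hlf I e
  have hfin : {e : G.edgeSet | ∃ v ∈ (e : Sym2 V), v ∈ I}.Finite :=
    touch_finite (G := G) hlf (S := (I : Set V)) I.finite_toSet
  have h1 : ∀ e : G.edgeSet, e ∈ te G I ↔ ∃ v ∈ (e : Sym2 V), v ∈ I := by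
    intro e
    unfold te
    rw [dif_pos hfin, Set.Finite.mem_toFinset]
    rfl
  refine ⟨h1 e, ?_⟩
  unfold bd
  rw [Finset.mem_filter, h1]

end Pool.Agent.Helper61.UQ
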