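import Pool.Agent.Helper1.UQ.St1

/-!
# Project UQ, module TRA: the main finite theorem
-/

set_option autoImplicit false

open Finset

namespace Pool.Agent.Helper61.UQ

open Classical Pool.Agent.Helper30.RCU Pool.Agent.Helper1.UQ

universe u

lemma ps_nonneg {V ι : Type u} (φ : ι → Sym2 V) {lam : ℝ} (hl : 0 ≤ lam) (F ω : Finset ι) :
    0 ≤ ps φ lam F ω := pow_nonneg hl _

lemma TW_nonneg {V ι : Type u} (φ : ι → Sym2 V) {p : ι → ℝ} {q : ℝ} (hp : ∀ e, 0 ≤ p e)
    (hp1 : ∀ e, p e ≤ 1) (hq : 1 ≤ q) (E T F : Finset ι) (g v : V) :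
    0 ≤ TW φ p q E T F g v := by
  unfold TW
  have h1 : 0 ≤ ∏ e ∈ F, p e / 2 := Finset.prod_nonneg fun e _ => by have := hp e; positivity
  have h2 : 0 ≤ ∏ e ∈ T \ F, (1 - p e) :=
    Finset.prod_nonneg fun e _ => sub_nonneg.mpr (hp1 e)
  have h3 : 0 ≤ S φ p q (E \ T) (fun ω => ps φ (2 / q) F ω * ind φ v g ω) :=
    S_nonneg hp hp1 hq _ fun ω => mul_nonneg (ps_nonneg φ (by positivity) F ω) (ind_nonneg v g ω)
  have h4 : 0 ≤ S φ p q E (fun _ => 1) := S_nonneg hp hp1 hq _ fun _ => zero_le_one
  positivity

lemma TW_eq_zero {V ι : Type u} (φ : ι → Sym2 V) {p : ι → ℝ} {q : ℝ} (E T F : Finset ι)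
    {g v : V} (hv : v ≠ g) (h : ∀ e ∈ E, e ∉ T → v ∉ φ e) :
    TW φ p q E T F g v = 0 := by
  unfold TW
  have h0 : S φ p q (E \ T) (fun ω => ps φ (2 / q) F ω * ind φ v g ω) = 0 := by
    unfold S
    refine Finset.sum_eq_zero fun ω hω => ?_
    have h1 : ¬ Conn φ ω v g := by
      refine not_conn_of_isolated (fun e he => ?_) hv
      have h2 := mem_powerset.mp hω he
      rw [mem_sdiff] at h2
      exact h e h2.1 h2.2
    have h2 : ind φ v g ω = 0 := by
      unfold ind
      rw [if_neg h1]
    simp only [h2, mul_zero]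
  rw [h0, mul_zero, zero_div]

theorem hTRA (hSTP : StSTP.{u}) (hKAP : StKAP.{u}) : StTRA.{u} := by
  intro V ι φ p p' q hp hp1 hp' hp1' hq hq2 E g κ c hκ hκ1 hc I hI h2 h3
  have hW : ∀ T F v, 0 ≤ TW φ p q E T F g v := fun T F v => TW_nonneg φ hp hp1 hq E T F g v
  have hW' : ∀ T F v, 0 ≤ TW φ p' q E T F g v := fun T F v => TW_nonneg φ hp' hp1' hq E T F g v
  have hk : 0 ≤ 1 - κ := sub_nonneg.mpr hκ1
  have key : ∀ n : ℕ, ∀ T v m, (E \ T).card ≤ n → I T v m → ∀ F ⊆ T,
      TW φ p q E T F g v ≤ c * TW φ p' q E T F g v + (1 - κ) ^ m * TW φ p q E T F g v := by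
    intro n
    induction n with
    | zero =>
      intro T v m hn hI0 F hF
      have hET : E \ T = ∅ := by rw [← Finset.card_eq_zero]; omega
      by_cases hvg : v = g
      · subst hvg
        have h4 := h2 T m hI0 F hF
        have h5 : 0 ≤ (1 - κ) ^ m * TW φ p q E T F v v := mul_nonneg (pow_nonneg hk m) (hW T F v)
        linarith
      · have h4 : TW φ p q E T F g v = 0 := TW_eq_zero φ E T F hvg fun e he heT =>
          absurd (mem_sdiff.mpr ⟨he, heT⟩) (by rw [hET]; exact notMem_empty e)
        rw [h4, mul_zero, add_zero]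
        exact mul_nonneg hc (hW' T F v)
    | succ n ih =>
      intro T v m hn hI0 F hF
      by_cases hvg : v = g
      · subst hvg
        have h4 := h2 T m hI0 F hF
        have h5 : 0 ≤ (1 - κ) ^ m * TW φ p q E T F v v := mul_nonneg (pow_nonneg hk m) (hW T F v)
        linarith
      · have hTE := hI T v m hI0
        have hcard : ∀ f ∈ E, f ∉ T → (E \ insert f T).card ≤ n := by
          intro f hf hfT
          have h4 : E \ insert f T = (E \ T).erase f := by
            ext x
            simp only [mem_sdiff, mem_insert, mem_erase, not_or]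
            tauto
          have h5 : f ∈ E \ T := mem_sdiff.mpr ⟨hf, hfT⟩
          rw [h4, Finset.card_erase_of_mem h5]
          omega
        rcases h3 T v m hI0 hvg with hm | hiso | ⟨f, hfE, hfT, b, hf, hI1, hI2⟩ |
          ⟨f, hfE, hfT, hf, hpf, m', hm, hI1, hI2⟩
        · subst hm
          have h4 : 0 ≤ c * TW φ p' q E T F g v := mul_nonneg hc (hW' T F v)
          simp only [pow_zero, one_mul]
          linarith
        · have h4 : TW φ p q E T F g v = 0 := TW_eq_zero φ E T F hvg hiso
          rw [h4, mul_zero, add_zero]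
          exact mul_nonneg hc (hW' T F v)
        · have e1 := hSTP V ι φ p q hp hp1 hq E T F g v b f hF hTE hfE hfT hf
          have e2 := hSTP V ι φ p' q hp' hp1' hq E T F g v b f hF hTE hfE hfT hf
          have hF1 : F ⊆ insert f T := hF.trans (subset_insert _ _)
          have hF2 : insert f F ⊆ insert f T := insert_subset_insert f hF
          have a1 := ih (insert f T) v m (hcard f hfE hfT) hI1 F hF1
          have a2 := ih (insert f T) v m (hcard f hfE hfT) hI1 (insert f F) hF2
          have a3 := ih (insert f T) b m (hcard f hfE hfT) hI2 (insert f F) hF2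
          rw [e1, e2]
          linarith
        · have e1 := hSTP V ι φ p q hp hp1 hq E T F g v g f hF hTE hfE hfT hf
          have e2 := hSTP V ι φ p' q hp' hp1' hq E T F g v g f hF hTE hfE hfT hf
          have e3 := hKAP V ι φ p q hp hp1 hq hq2 E T F g v f hF hTE hfE hfT
          have hF1 : F ⊆ insert f T := hF.trans (subset_insert _ _)
          have hF2 : insert f F ⊆ insert f T := insert_subset_insert f hF
          have a1 := ih (insert f T) v m' (hcard f hfE hfT) hI1 F hF1
          have a2 := ih (insert f T) v m' (hcard f hfE hfT) hI1 (insert f F) hF2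
          have a3 := h2 (insert f T) m' hI2 (insert f F) hF2
          set W := TW φ p q E T F g v with hWdef
          set W1 := TW φ p q E (insert f T) F g v with hW1
          set W2 := TW φ p q E (insert f T) (insert f F) g v with hW2
          set W3 := TW φ p q E (insert f T) (insert f F) g g with hW3
          have hWn : 0 ≤ W := hW T F v
          have b1 : κ * W ≤ W3 := by
            have : κ * W ≤ p f / 2 * W := mul_le_mul_of_nonneg_right (by linarith) hWn
            linarith
          have b2 : W1 + W2 ≤ (1 - κ) * W := by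
            have : W1 + W2 = W - W3 := by linarith
            linarith
          have b3 : (1 - κ) ^ m' * (W1 + W2) ≤ (1 - κ) ^ m' * ((1 - κ) * W) :=
            mul_le_mul_of_nonneg_left b2 (pow_nonneg hk m')
          have b4 : (1 - κ) ^ m * W = (1 - κ) ^ m' * ((1 - κ) * W) := by
            rw [hm, pow_succ]; ring
          rw [b4, e2]
          have b5 : W = W1 + W2 + W3 := e1
          have b6 : (1 - κ) ^ m' * (W1 + W2) = (1 - κ) ^ m' * W1 + (1 - κ) ^ m' * W2 := by ring
          rw [b6] at b3
          linarith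
  intro T v m hI0 F hF
  exact key (E \ T).card T v m le_rfl hI0 F hF

end Pool.Agent.Helper61.UQ
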